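import Pool.Agent.Helper94.PU.Sheet
open MeasureTheory Metric Set Filter Topology Real
open scoped ENNReal NNReal

/-!
Row HGT of project PU: counting heights.
-/

namespace H11ST
namespace PU

theorem hgt_aux (δ : ℝ) (hδ : 0 < δ) : ∀ (n : ℕ) (F : Finset ℝ), F.card = n + 1 →
    (∀ x ∈ F, δ ≤ x ∧ x ≤ 1 / 40) → (∀ x ∈ F, ∀ y ∈ F, x < y → x ≤ 5 * y ^ 2) →
    ∃ x ∈ F, 5 * x ≤ (1 / 8 : ℝ) ^ (2 ^ n) := by
  intro n
  induction n with
  | zero =>
    intro F hF h1 _
    have hne : F.Nonempty := by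
      rw [← Finset.card_pos, hF]; norm_num
    obtain ⟨x, hx⟩ := hne
    refine ⟨x, hx, ?_⟩
    have := (h1 x hx).2
    norm_num
    linarith
  | succ n ih =>
    intro F hF h1 h2
    have hne : F.Nonempty := by
      rw [← Finset.card_pos, hF]; omega
    set m := F.min' hne with hm
    have hmF : m ∈ F := F.min'_mem hne
    obtain ⟨x, hx, hx'⟩ := ih (F.erase m) (by rw [Finset.card_erase_of_mem hmF, hF]; omega)
      (fun x hx => h1 x (Finset.mem_of_mem_erase hx))
      (fun x hx y hy => h2 x (Finset.mem_of_mem_erase hx) y (Finset.mem_of_mem_erase hy))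
    refine ⟨m, hmF, ?_⟩
    have hxF := Finset.mem_of_mem_erase hx
    have hlt : m < x := lt_of_le_of_ne (F.min'_le x hxF) (Finset.ne_of_mem_erase hx).symm
    have h3 := h2 m hmF x hxF hlt
    have h4 : 0 ≤ 5 * x := by
      have := (h1 x hxF).1
      linarith
    calc 5 * m ≤ (5 * x) ^ 2 := by nlinarith
      _ ≤ ((1 / 8 : ℝ) ^ (2 ^ n)) ^ 2 := by gcongr
      _ = (1 / 8 : ℝ) ^ (2 ^ (n + 1)) := by rw [← pow_mul, pow_succ 2 n]

theorem st_HGT : ST_HGT := by
  intro F δ hδ hδ1 h1 h2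
  have hl0 : 0 ≤ Real.log (1 / δ) := Real.log_nonneg (by rw [le_div_iff₀ hδ]; linarith)
  rcases Nat.eq_zero_or_pos F.card with h0 | h0
  · rw [h0]
    have : 0 ≤ Real.log (1 + Real.log (1 / δ)) := Real.log_nonneg (by linarith)
    push_cast
    linarith
  · obtain ⟨n, hn⟩ : ∃ n, F.card = n + 1 := ⟨F.card - 1, by omega⟩
    obtain ⟨x, hx, hx'⟩ := hgt_aux δ hδ n F hn h1 h2
    have h3 : δ ≤ (1 / 8 : ℝ) ^ (2 ^ n) := by
      have := (h1 x hx).1
      linarith
    have h4 : (2 : ℝ) ^ n * Real.log 8 ≤ Real.log (1 / δ) := by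
      have h5 : Real.log δ ≤ Real.log ((1 / 8 : ℝ) ^ (2 ^ n)) := Real.log_le_log hδ h3
      rw [Real.log_pow, one_div, Real.log_inv] at h5
      rw [one_div, Real.log_inv]
      push_cast at h5
      linarith
    have hlog8 : (1 : ℝ) ≤ Real.log 8 := by
      rw [Real.le_log_iff_exp_le (by norm_num)]
      have := Real.exp_one_lt_d9
      linarith
    have h6 : (2 : ℝ) ^ n ≤ 1 + Real.log (1 / δ) := by
      have : (0 : ℝ) < 2 ^ n := by positivity
      nlinarith
    have h7 : (n : ℝ) * Real.log 2 ≤ Real.log (1 + Real.log (1 / δ)) := by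
      rw [← Real.log_pow]
      exact Real.log_le_log (by positivity) h6
    have h8 := Real.log_two_gt_d9
    rw [hn]
    push_cast
    have hn0 : (0 : ℝ) ≤ n := Nat.cast_nonneg n
    nlinarith

end PU
end H11ST
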